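import Pool.Agent.H234RC.Main

set_option autoImplicit false

/-!
# Fewer than the square root of all graphs can violate the reconstruction conjecture

`T(G)` is the set of nonempty cliques of `G` ordered by inclusion.  For every fixed `p` in
`(0,1)` and all large `n`, the probability that `T(G)` is not reconstructible from its deck of
maximal filter deleted subsets, for `G` a random graph in `G(n,p)`, is at most
`max(p,1-p)^{(13/25) C(n,2)}`.
-/

namespace Pool.Agent.Results.MP_552896_co.FewExceptions

/-- The truncated clique lattices of `G` and `H` have the same deck of maximal filter deleted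
subsets: some bijection `f` of the vertex sets is such that, for every vertex `v`, the nonempty
cliques of `G` avoiding `v` and the nonempty cliques of `H` avoiding `f v`, both ordered by
inclusion, are isomorphic ordered sets. -/
def SameDeck {V W : Type} (G : SimpleGraph V) (H : SimpleGraph W) : Prop :=
  ∃ f : V ≃ W, ∀ v : V,
    Nonempty ({s : Finset V // s.Nonempty ∧ G.IsClique (s : Set V) ∧ v ∉ s} ≃o
      {t : Finset W // t.Nonempty ∧ H.IsClique (t : Set W) ∧ f v ∉ t})

/-- `T(G)` is reconstructible from its deck: every truncated clique lattice `T(H)` of a finite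
graph `H` with the same deck is isomorphic to `T(G)`. -/
def Reconstructible {V : Type} (G : SimpleGraph V) : Prop :=
  ∀ (W : Type) [Fintype W] (H : SimpleGraph W), SameDeck G H →
    Nonempty ({s : Finset V // s.Nonempty ∧ G.IsClique (s : Set V)} ≃o
      {t : Finset W // t.Nonempty ∧ H.IsClique (t : Set W)})

open Classical in
theorem result : ∀ p : ℝ, 0 < p → p < 1 →
    ∃ n₀ : ℕ, ∀ n : ℕ, n₀ ≤ n →
      ∑ G ∈ Finset.univ.filter (fun G : SimpleGraph (Fin n) => ¬ Reconstructible G),
        p ^ G.edgeSet.ncard * (1 - p) ^ (n.choose 2 - G.edgeSet.ncard) ≤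
      (max p (1 - p)) ^ ((13 / 25 : ℝ) * (n.choose 2 : ℝ)) :=
  fun p hp0 hp1 => Pool.Agent.H234RC.main_theorem p hp0 hp1

end Pool.Agent.Results.MP_552896_co.FewExceptions
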