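import Pool.Agent.H234RC.Main3

set_option autoImplicit false

/-!
# Three cards suffice for all but about the square root of all graphs

`T(G)` is the set of nonempty cliques of `G` ordered by inclusion.  For every fixed `p` in
`(0,1)`, every `ε > 0` and all large `n`, the probability that no three cards (maximal filter
deleted subsets) of `T(G)` determine `T(G)`, for `G` a random graph in `G(n,p)`, is at most
`max(p,1-p)^{(1/2-ε) C(n,2)}`.
-/

namespace Pool.Agent.Results.MP_552896_co.ThreeCardsSuffice

/-- The card of `T(G)` at `v` and the card of `T(H)` at `w` are isomorphic: the nonempty cliques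
of `G` avoiding `v` and the nonempty cliques of `H` avoiding `w`, both ordered by inclusion, are
isomorphic ordered sets. -/
def SameCard {V W : Type} (G : SimpleGraph V) (v : V) (H : SimpleGraph W) (w : W) : Prop :=
  Nonempty ({s : Finset V // s.Nonempty ∧ G.IsClique (s : Set V) ∧ v ∉ s} ≃o
    {t : Finset W // t.Nonempty ∧ H.IsClique (t : Set W) ∧ w ∉ t})

/-- Three cards of `T(G)` determine `T(G)`: for some three distinct vertices `a`, `b`, `c` of `G`,
every truncated clique lattice `T(H)` of a finite graph `H` which has, at three distinct vertices,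
cards isomorphic to the cards of `T(G)` at `a`, `b`, `c`, is isomorphic to `T(G)`. -/
def ThreeCardsDetermine {V : Type} (G : SimpleGraph V) : Prop :=
  ∃ a b c : V, a ≠ b ∧ a ≠ c ∧ b ≠ c ∧
    ∀ (W : Type) [Fintype W] (H : SimpleGraph W) (a' b' c' : W), a' ≠ b' → a' ≠ c' → b' ≠ c' →
      SameCard G a H a' → SameCard G b H b' → SameCard G c H c' →
      Nonempty ({s : Finset V // s.Nonempty ∧ G.IsClique (s : Set V)} ≃o
        {t : Finset W // t.Nonempty ∧ H.IsClique (t : Set W)})

open Classical in
theorem result : ∀ p : ℝ, 0 < p → p < 1 → ∀ ε : ℝ, 0 < ε →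
    ∃ n₀ : ℕ, ∀ n : ℕ, n₀ ≤ n →
      ∑ G ∈ Finset.univ.filter (fun G : SimpleGraph (Fin n) => ¬ ThreeCardsDetermine G),
        p ^ G.edgeSet.ncard * (1 - p) ^ (n.choose 2 - G.edgeSet.ncard) ≤
      (max p (1 - p)) ^ ((1 / 2 - ε) * (n.choose 2 : ℝ)) :=
  fun p hp0 hp1 ε hε => Pool.Agent.H234RC.main3 p hp0 hp1 ε hε

end Pool.Agent.Results.MP_552896_co.ThreeCardsSuffice
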